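import Pool.Agent.Helper27_QL.StmtApp3

/-!
# app3: an invariant nondegenerate subspace forces `c = ±1`
-/

set_option autoImplicit false
set_option linter.unusedVariables false
open Matrix Polynomial MeasureTheory Set Filter Topology

namespace QL.H76

/-- rows times the adjugate of a square submatrix are Pluecker coordinates -/
theorem row_adj {ι : Type} {m : ℕ} (P : Matrix ι (Fin m) ℝ) (i : Fin m → ι) (r : ι) (a : Fin m) :
    (P * (P.submatrix i id).adjugate) r a = pl P (Function.update i a r) := by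
  have h1 : (P * (P.submatrix i id).adjugate) r a = (P r ᵥ* (P.submatrix i id).adjugate) a := rfl
  rw [h1, ← mulVec_transpose, adjugate_transpose, ← cramer_eq_adjugate_mulVec,
    cramer_transpose_apply]
  unfold pl
  congr 1
  ext x y
  by_cases hx : x = a
  · subst hx
    simp
  · simp [Matrix.updateRow_apply, hx]

/-- equal nonzero Pluecker vectors: same column space -/
theorem exists_kappa {ι : Type} {m : ℕ} {P N : Matrix ι (Fin m) ℝ} (h : pl P = pl N)
    {i : Fin m → ι} (hi : pl N i ≠ 0) : ∃ κ : Matrix (Fin m) (Fin m) ℝ, κ.det = 1 ∧ P = N * κ := by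
  have hP : pl P i ≠ 0 := by rw [h]; exact hi
  have hadj : P * (P.submatrix i id).adjugate = N * (N.submatrix i id).adjugate := by
    ext r a
    rw [row_adj, row_adj, h]
  have hdN : (N.submatrix i id).det = pl N i := rfl
  have hdP : (P.submatrix i id).det = pl P i := rfl
  have huN : IsUnit (N.submatrix i id).det := by rw [hdN]; exact isUnit_iff_ne_zero.2 hi
  refine ⟨(N.submatrix i id)⁻¹ * P.submatrix i id, ?_, ?_⟩
  · rw [det_mul, det_nonsing_inv, hdN, hdP, h, Ring.inverse_eq_inv', inv_mul_cancel₀ hi]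
  · have h1 : P * ((P.submatrix i id).adjugate * P.submatrix i id) =
        N * ((N.submatrix i id).adjugate * P.submatrix i id) := by
      rw [← Matrix.mul_assoc, hadj, Matrix.mul_assoc]
    rw [adjugate_mul, hdP, Matrix.mul_smul, Matrix.mul_one] at h1
    rw [Matrix.inv_def, hdN, Ring.inverse_eq_inv', Matrix.smul_mul, Matrix.mul_smul, ← h1,
      smul_smul, h, inv_mul_cancel₀ hi, one_smul]

theorem pl_mul_right {ι : Type} {m : ℕ} (N : Matrix ι (Fin m) ℝ) (κ : Matrix (Fin m) (Fin m) ℝ) :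
    pl (N * κ) = κ.det • pl N := by
  funext i
  unfold pl
  have h : (N * κ).submatrix i id = N.submatrix i id * κ := rfl
  rw [h, det_mul]
  simp [mul_comm]

/-- the cone identity -/
def Cone {ι : Type} [Fintype ι] {m : ℕ} (N : Matrix ι (Fin m) ℝ) (D : ℝ) (q : W ι) : Prop :=
  (4 : ℝ) • (q.1 * N * (Nᵀ * q.1 * N).adjugate * (Nᵀ * q.1)) = D • vecMulVec q.2 q.2

theorem cone_act {ι : Type} [Fintype ι] [DecidableEq ι] {m : ℕ} {N : Matrix ι (Fin m) ℝ} {D : ℝ}
    {q : W ι} (hq : Cone N D q) {h : Matrix ι ι ℝ} {κ : Matrix (Fin m) (Fin m) ℝ} (hκ : κ.det = 1)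
    (hN : h * N = N * κ) : Cone N D (act q h) := by
  unfold Cone act at *
  simp only
  have e1 : hᵀ * q.1 * h * N = hᵀ * (q.1 * N) * κ := by
    rw [Matrix.mul_assoc _ h, hN]
    simp only [Matrix.mul_assoc]
  have hNt : Nᵀ * hᵀ = κᵀ * Nᵀ := by
    rw [← transpose_mul, hN, transpose_mul]
  have e2 : Nᵀ * (hᵀ * q.1 * h) = κᵀ * (Nᵀ * q.1) * h := by
    rw [Matrix.mul_assoc hᵀ, ← Matrix.mul_assoc, hNt]
    simp only [Matrix.mul_assoc]
  have e3 : Nᵀ * (hᵀ * q.1 * h) * N = κᵀ * (Nᵀ * q.1 * N) * κ := by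
    rw [e2, Matrix.mul_assoc _ h, hN]
    simp only [Matrix.mul_assoc]
  have ha : κ * κ.adjugate = 1 := by rw [mul_adjugate, hκ, one_smul]
  have ha' : κᵀ.adjugate * κᵀ = 1 := by rw [adjugate_mul, det_transpose, hκ, one_smul]
  rw [e3, adjugate_mul_distrib, adjugate_mul_distrib, e1, e2]
  have e4 : hᵀ * (q.1 * N) * κ * (κ.adjugate * ((Nᵀ * q.1 * N).adjugate * κᵀ.adjugate)) *
      (κᵀ * (Nᵀ * q.1) * h) = hᵀ * (q.1 * N * (Nᵀ * q.1 * N).adjugate * (Nᵀ * q.1)) * h := by
    calc hᵀ * (q.1 * N) * κ * (κ.adjugate * ((Nᵀ * q.1 * N).adjugate * κᵀ.adjugate)) *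
          (κᵀ * (Nᵀ * q.1) * h) = hᵀ * (q.1 * N) * (κ * κ.adjugate) * (Nᵀ * q.1 * N).adjugate *
          (κᵀ.adjugate * κᵀ) * (Nᵀ * q.1) * h := by simp only [Matrix.mul_assoc]
      _ = _ := by
        rw [ha, ha', Matrix.mul_one, Matrix.mul_one]
        simp only [Matrix.mul_assoc]
  rw [e4, ← Matrix.smul_mul, ← Matrix.mul_smul, hq]
  rw [Matrix.mul_smul, Matrix.smul_mul]
  congr 1
  rw [Matrix.mul_assoc, vecMulVec_mul, mul_vecMulVec, mulVec_transpose]

theorem cone_closed {ι : Type} [Fintype ι] {m : ℕ} (N : Matrix ι (Fin m) ℝ) (D : ℝ) :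
    IsClosed {q : W ι | Cone N D q} := by
  unfold Cone
  refine isClosed_eq ?_ ?_
  · have c1 : Continuous fun q : W ι => q.1 * N := continuous_fst.matrix_mul continuous_const
    have c2 : Continuous fun q : W ι => Nᵀ * q.1 := continuous_const.matrix_mul continuous_fst
    have c3 : Continuous fun q : W ι => (Nᵀ * q.1 * N).adjugate :=
      (c2.matrix_mul continuous_const).matrix_adjugate
    exact ((c1.matrix_mul c3).matrix_mul c2).const_smul (4 : ℝ)
  · exact (continuous_snd.matrix_vecMulVec continuous_snd).const_smul D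

/-- adjugate of a matrix whose first row and column vanish -/
theorem adj_zero {k : ℕ} {S : Matrix (Fin (k + 1)) (Fin (k + 1)) ℝ} (h0 : ∀ j, S 0 j = 0)
    (h0' : ∀ i, S i 0 = 0) (a b : Fin (k + 1)) :
    S.adjugate a b = if a = 0 ∧ b = 0 then (S.submatrix Fin.succ Fin.succ).det else 0 := by
  rw [adjugate_apply]
  by_cases hb : b = 0
  · subst hb
    by_cases ha : a = 0
    · subst ha
      rw [if_pos ⟨rfl, rfl⟩, det_succ_row_zero]
      rw [Fin.sum_univ_succ]
      simp
      congr 1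
    · rw [if_neg (fun h => ha h.1)]
      refine det_eq_zero_of_column_eq_zero 0 fun i => ?_
      by_cases hi : i = 0
      · subst hi
        simp [Ne.symm ha]
      · simp [Matrix.updateRow_apply, hi, h0']
  · rw [if_neg (fun h => hb h.2)]
    refine det_eq_zero_of_row_eq_zero 0 fun j => ?_
    rw [Matrix.updateRow_ne (Ne.symm hb)]
    exact h0 j

/-- the value of the cone identity at the base point -/
theorem cone_base {d k : ℕ} (B : Matrix (Fin d) (Fin d) ℝ) (hs : (QB B)ᵀ = QB B)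
    (M0 : Matrix (I3 d) (Fin k) ℝ) (N : Matrix (I3 d) (Fin (k + 1)) ℝ)
    (hN : N = fun i j => Fin.cases ((Pi.single (Sum.inr 1) 1 : I3 d → ℝ) i) (fun j' => M0 i j') j)
    (hL : LB d ᵥ* N = 0) (b : ℝ) : (4 : ℝ) • ((QB B + b • LL d) * N *
      (Nᵀ * (QB B + b • LL d) * N).adjugate * (Nᵀ * (QB B + b • LL d))) =
      (M0ᵀ * QB B * M0).det • LL d := by
  have hLN : LL d * N = 0 := by
    unfold LL
    rw [vecMulVec_mul, hL]
    ext i j
    simp [vecMulVec_apply]
  have hNL : Nᵀ * LL d = 0 := by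
    unfold LL
    rw [mul_vecMulVec, mulVec_transpose, hL]
    ext i j
    simp [vecMulVec_apply]
  have e1 : (QB B + b • LL d) * N = QB B * N := by
    rw [Matrix.add_mul, Matrix.smul_mul, hLN, smul_zero, add_zero]
  have e2 : Nᵀ * (QB B + b • LL d) = Nᵀ * QB B := by
    rw [Matrix.mul_add, Matrix.mul_smul, hNL, smul_zero, add_zero]
  rw [e1, e2]
  -- the first column of `Q N`
  have hcol : ∀ i, (QB B * N) i 0 = LB d i / 2 := by
    intro i
    have h1 : (QB B * N) i 0 = QB B i (Sum.inr 1) := by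
      rw [Matrix.mul_apply, hN]
      simp [Pi.single_apply]
    rw [h1]
    rcases i with i | i
    · simp [QB, LB]
    · fin_cases i <;> simp [QB, LB]
  have hrow : ∀ j, (Nᵀ * QB B) 0 j = LB d j / 2 := by
    intro j
    have h1 : Nᵀ * QB B = (QB B * N)ᵀ := by rw [transpose_mul, hs]
    rw [h1]
    exact hcol j
  set S := Nᵀ * QB B * N with hS
  have hSs : ∀ a c, S a c = S c a := by
    intro a c
    have h1 : Sᵀ = S := by
      rw [hS, transpose_mul, transpose_mul, transpose_transpose, hs, Matrix.mul_assoc]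
    conv_lhs => rw [← h1]
    rfl
  have h0 : ∀ j, S 0 j = 0 := by
    intro j
    have h1 : S 0 j = ∑ i, LB d i / 2 * N i j := by
      rw [hS, Matrix.mul_apply]
      exact Finset.sum_congr rfl fun i _ => by rw [hrow]
    have h2 := congrFun hL j
    simp only [vecMul, dotProduct, Pi.zero_apply] at h2
    rw [h1]
    have h3 : ∑ i, LB d i / 2 * N i j = (∑ i, LB d i * N i j) / 2 := by
      rw [Finset.sum_div]
      exact Finset.sum_congr rfl fun i _ => by ring
    rw [h3, h2, zero_div]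
  have h0' : ∀ i, S i 0 = 0 := fun i => by rw [hSs, h0]
  have hsub : S.submatrix Fin.succ Fin.succ = M0ᵀ * QB B * M0 := by
    have hN' : N.submatrix id Fin.succ = M0 := by
      rw [hN]
      rfl
    rw [hS]
    have h1 : (Nᵀ * QB B * N).submatrix Fin.succ Fin.succ =
        (N.submatrix id Fin.succ)ᵀ * QB B * N.submatrix id Fin.succ := rfl
    rw [h1, hN']
  ext i j
  rw [Matrix.smul_apply, Matrix.smul_apply, Matrix.mul_apply]
  have h5 : ∀ c, (QB B * N * S.adjugate) i c = LB d i / 2 * S.adjugate 0 c := by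
    intro c
    rw [Matrix.mul_apply, Finset.sum_eq_single 0]
    · rw [hcol]
    · intro a _ ha
      rw [adj_zero h0 h0', if_neg (fun h => ha h.1), mul_zero]
    · intro h
      exact absurd (Finset.mem_univ _) h
  simp only [h5]
  rw [Finset.sum_eq_single 0]
  · rw [adj_zero h0 h0', if_pos ⟨rfl, rfl⟩, hrow, hsub]
    simp only [LL, vecMulVec_apply, smul_eq_mul]
    ring
  · intro a _ ha
    rw [adj_zero h0 h0', if_neg (fun h => ha h.2)]
    ring
  · intro h
    exact absurd (Finset.mem_univ _) h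

/-- `coneBStatement` with the necessary hypothesis `k + 1 < d + 2` -/
def coneB76Statement : Prop := ∀ (d : ℕ) (hd : 2 ≤ d) (B : Matrix (Fin d) (Fin d) ℝ)
  (hB : GoodB d B) (k : ℕ) (hk : k + 1 < d + 2) (M0 : Matrix (I3 d) (Fin k) ℝ)
  (M : Matrix (I3 d) (Fin (k+1)) ℝ) (hM : PlFix B M) (hN : NdegB B M0 M)
  (g : ℕ → M3 d) (hdet : ∀ i, (g i).det = 1) (i0 : ℕ) (hfix : ∀ i ≥ i0, pl (g i * M) = pl M)
  (b c : ℝ) (hcl : qB B b c ∈ closure {q | ∃ i ≥ i0, ∃ w, q = act (pB B) (g i * uB B w)}),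
  c^2 = 1

theorem goodB_symm {d : ℕ} {B : Matrix (Fin d) (Fin d) ℝ} (h : GoodB d B) : Bᵀ = B := by
  rcases h with h | ⟨_, h⟩
  · rw [h, transpose_one]
  · ext i j
    rw [transpose_apply, h, h]
    simp only [eq_comm]

theorem QB_symm {d : ℕ} {B : Matrix (Fin d) (Fin d) ℝ} (h : Bᵀ = B) : (QB B)ᵀ = QB B := by
  unfold QB
  rw [fromBlocks_transpose, h]
  congr 1
  ext i j
  fin_cases i <;> fin_cases j <;> simp

theorem coneB (hp : planeBStatement) (hpl : pl_mulStatement) : coneB76Statement := by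
  intro d hd B hB k hk M0 M hM hN g hdet i0 hfix b c hcl
  obtain ⟨⟨κ, hκ, hMκ⟩, hD⟩ := hN
  obtain ⟨⟨c0, hc0⟩, hMu⟩ := hM
  have hLM := (hp d hd B hB (k + 1) (by omega) hk M ⟨⟨c0, hc0⟩, hMu⟩).1
  set N := M * κ with hNdef
  have hL : LB d ᵥ* N = 0 := by
    rw [hNdef, ← vecMul_vecMul, hLM, zero_vecMul]
  have hs := QB_symm (goodB_symm hB)
  have hbase := cone_base B hs M0 N hMκ hL
  set D := (M0ᵀ * QB B * M0).det with hDd
  have hN0 : pl N c0 ≠ 0 := by
    rw [hNdef, pl_mul_right]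
    exact mul_ne_zero hκ hc0
  have hcone0 : Cone N D (pB B) := by
    have := hbase 0
    rw [zero_smul, add_zero] at this
    exact this
  have hsub : {q | ∃ i ≥ i0, ∃ w, q = act (pB B) (g i * uB B w)} ⊆ {q : W (I3 d) | Cone N D q} := by
    rintro q ⟨i, hi, w, rfl⟩
    have h1 : pl (g i * uB B w * N) = pl N := by
      rw [hNdef, ← Matrix.mul_assoc, pl_mul_right, pl_mul_right, Matrix.mul_assoc, hpl, hMu,
        ← hpl, hfix i hi]
    obtain ⟨κ', h2, h3⟩ := exists_kappa h1 hN0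
    exact cone_act hcone0 h2 h3
  have hfin : Cone N D (qB B b c) := closure_minimal hsub (cone_closed N D) hcl
  unfold Cone qB at hfin
  simp only at hfin
  rw [hbase b] at hfin
  have h1 := congrFun (congrFun hfin (Sum.inr 0)) (Sum.inr 0)
  simp only [LL, vecMulVec_apply, LB, Matrix.smul_apply, Pi.smul_apply, smul_eq_mul,
    Sum.elim_inr, Matrix.cons_val_zero, mul_one] at h1
  have h2 : D * (c ^ 2 - 1) = 0 := by linear_combination -h1
  have h3 := (mul_eq_zero.1 h2).resolve_left hD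
  linarith

end QL.H76
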