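import Pool.Agent.Helper27_QL.Stmt

/-!
# Module M8: density of the values of an irrational linear form at primitive vectors; pencils
-/

set_option autoImplicit false
open Matrix Polynomial MeasureTheory Set Filter Topology

namespace QL.H76

theorem prm_of_unit {ι : Type} [Fintype ι] {w : ι → ℤ} {i j : ι} {a b : ℤ}
    (h : a * w i + b * w j = 1) : iv w ∈ Prm ι := by
  refine ⟨w, ?_, fun _ => rfl⟩
  have h1 : Finset.univ.gcd w ∣ 1 := by
    rw [← h]
    exact dvd_add ((Finset.gcd_dvd (Finset.mem_univ i)).mul_left a)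
      ((Finset.gcd_dvd (Finset.mem_univ j)).mul_left b)
  rw [← Finset.normalize_gcd]
  exact normalize_eq_one.2 (isUnit_of_dvd_one h1)

/-- some ratio of two coefficients is irrational -/
theorem exists_irr {ι : Type} [Fintype ι] (l : ι → ℝ) (hl : l ≠ 0)
    (hirr : ∀ w : ι → ℤ, w ≠ 0 → ¬ ∃ c : ℝ, iv w = c • l) :
    ∃ i j, l j ≠ 0 ∧ Irrational (l i / l j) := by
  obtain ⟨j, hj⟩ := Function.ne_iff.1 hl
  by_contra hcon
  push Not at hcon
  have h1 : ∀ i, ∃ q : ℚ, (q : ℝ) = l i / l j := by
    intro i
    have := hcon i j hj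
    unfold Irrational at this
    rw [not_not] at this
    exact this
  choose q hq using h1
  set N : ℤ := ∏ i, ((q i).den : ℤ) with hN
  have hN0 : N ≠ 0 := Finset.prod_ne_zero_iff.2 fun i _ => by exact_mod_cast (q i).den_ne_zero
  have h2 : ∀ i, ∃ k : ℤ, (k : ℝ) = N * (q i : ℝ) := by
    intro i
    obtain ⟨k, hk⟩ : ((q i).den : ℤ) ∣ N := Finset.dvd_prod_of_mem _ (Finset.mem_univ i)
    refine ⟨k * (q i).num, ?_⟩
    have h3 : ((q i : ℚ) : ℝ) * ((q i).den : ℝ) = (q i).num := by
      have := Rat.mul_den_eq_num (q i)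
      exact_mod_cast this
    rw [hk]
    push_cast
    rw [← h3]
    ring
  choose k hk using h2
  refine hirr k ?_ ⟨N / l j, ?_⟩
  · intro h0
    have h3 := hk j
    rw [h0, hq j, div_self hj] at h3
    simp at h3
    exact hN0 (by exact_mod_cast h3.symm)
  · funext i
    simp only [iv, Pi.smul_apply, smul_eq_mul]
    rw [hk, hq]
    ring

/-- small values at coprime pairs -/
theorem exists_small {x y : ℝ} (hy : y ≠ 0) (h : Irrational (x / y)) {ε : ℝ} (hε : 0 < ε) :
    ∃ a b c d : ℤ, a * d - b * c = 1 ∧ a * x + b * y ≠ 0 ∧ |a * x + b * y| < ε := by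
  obtain ⟨n, hn⟩ := exists_nat_gt (|y| / ε)
  have hy' : 0 < |y| := abs_pos.2 hy
  have hn0 : 0 < n := by
    have : 0 < |y| / ε := by positivity
    exact_mod_cast this.trans hn
  obtain ⟨q, hq1, hq2⟩ := Real.exists_rat_abs_sub_le_and_den_le (x / y) hn0
  have hcop : IsCoprime ((q.den : ℤ)) (-q.num) := by
    have h1 := q.reduced
    have h2 : IsCoprime q.num (q.den : ℤ) := by
      rw [Int.isCoprime_iff_gcd_eq_one, Int.gcd_eq_natAbs]
      simpa using h1
    exact h2.symm.neg_right
  obtain ⟨u, v, huv⟩ := hcop
  have hden : (0 : ℝ) < q.den := by exact_mod_cast q.den_pos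
  have hval : ((q.den : ℤ) : ℝ) * x + ((-q.num : ℤ) : ℝ) * y = q.den * y * (x / y - q) := by
    have h3 : ((q : ℚ) : ℝ) * (q.den : ℝ) = q.num := by
      have := Rat.mul_den_eq_num q
      exact_mod_cast this
    push_cast
    rw [← h3]
    field_simp
    ring
  refine ⟨q.den, -q.num, -v, u, by linarith, ?_, ?_⟩
  · rw [hval]
    have h4 : x / y - q ≠ 0 := by
      intro h0
      exact h ⟨q, by linarith⟩
    positivity
  · rw [hval, abs_mul, abs_mul, abs_of_pos hden]
    calc (q.den : ℝ) * |y| * |x / y - q| ≤ q.den * |y| * (1 / ((n + 1) * q.den)) := by gcongr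
      _ = |y| / (n + 1) := by field_simp
      _ < ε := by
        rw [div_lt_iff₀ hε] at hn
        rw [div_lt_iff₀ (by positivity)]
        nlinarith

theorem dense_lin {ι : Type} [Fintype ι] (l m : ι → ℝ) (hl : l ≠ 0)
    (hirr : ∀ w : ι → ℤ, w ≠ 0 → ¬ ∃ c : ℝ, iv w = c • l) (hm : m ≠ 0) :
    Dense {t : ℝ | ∃ v ∈ Prm ι, m ⬝ᵥ v ≠ 0 ∧ t = l ⬝ᵥ v} := by
  classical
  obtain ⟨i, j, hj, hij⟩ := exists_irr l hl hirr
  have hne : i ≠ j := by
    rintro rfl
    rw [div_self hj] at hij
    exact hij ⟨1, by simp⟩
  rw [Metric.dense_iff]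
  intro t ε hε
  obtain ⟨a, b, c, d, hdet, hne0, hlt⟩ := exists_small hj hij (show 0 < ε / 4 by positivity)
  set δ := (a : ℝ) * l i + b * l j with hδ
  -- the family of vectors
  have fam : ∀ r : ι → ℤ, r i = 0 → r j = 0 → ∃ v : ℤ → ι → ℤ, (∀ k, iv (v k) ∈ Prm ι) ∧
      (∀ k, v k = Pi.single i (c + k * a) + Pi.single j (d + k * b) + r) ∧
      (∀ n : ι → ℝ, ∀ k, n ⬝ᵥ iv (v k) = n i * (c + k * a) + n j * (d + k * b) + n ⬝ᵥ iv r) := by
    intro r hri hrj
    refine ⟨fun k => Pi.single i (c + k * a) + Pi.single j (d + k * b) + r, fun k => ?_,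
      fun k => rfl, fun n k => ?_⟩
    · refine prm_of_unit (i := i) (j := j) (a := -b) (b := a) ?_
      simp [hne, hne.symm, hri, hrj]
      linarith
    · have h1 : iv (Pi.single i (c + k * a) + Pi.single j (d + k * b) + r) =
          Pi.single i ((c : ℝ) + k * a) + Pi.single j ((d : ℝ) + k * b) + iv r := by
        funext x
        simp only [iv, Pi.add_apply, Int.cast_add]
        congr 2
        · by_cases hx : x = i
          · subst hx; simp
          · simp [hx]
        · by_cases hx : x = j
          · subst hx; simp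
          · simp [hx]
      rw [h1, dotProduct_add, dotProduct_add, dotProduct_single, dotProduct_single]
  have win : ∀ s : ℝ, ∃ k : ℤ, |s + k * δ - t| < ε ∧ |s + (k + 1 : ℤ) * δ - t| < ε := by
    intro s
    refine ⟨round ((t - s) / δ), ?_⟩
    have h1 := abs_sub_round ((t - s) / δ)
    have h2 : |s + round ((t - s) / δ) * δ - t| ≤ |δ| / 2 := by
      have h3 : s + round ((t - s) / δ) * δ - t = -(((t - s) / δ - round ((t - s) / δ)) * δ) := by
        field_simp
        ring
      rw [h3, abs_neg, abs_mul]
      nlinarith [abs_nonneg δ]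
    constructor
    · have := abs_nonneg δ
      linarith
    · have h4 : s + (round ((t - s) / δ) + 1 : ℤ) * δ - t =
          (s + round ((t - s) / δ) * δ - t) + δ := by
        push_cast
        ring
      rw [h4]
      refine (abs_add_le _ _).trans_lt ?_
      have := abs_nonneg δ
      linarith
  by_cases hmij : m i = 0 ∧ m j = 0
  · obtain ⟨x, hx⟩ := Function.ne_iff.1 hm
    have hxi : x ≠ i := by rintro rfl; exact hx hmij.1
    have hxj : x ≠ j := by rintro rfl; exact hx hmij.2
    obtain ⟨v, hv1, hv2, hv3⟩ := fam (Pi.single x 1) (by simp [hxi.symm]) (by simp [hxj.symm])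
    obtain ⟨k, hk, -⟩ := win (l i * c + l j * d + l ⬝ᵥ iv (Pi.single x 1))
    refine ⟨l ⬝ᵥ iv (v k), ?_, iv (v k), hv1 k, ?_, rfl⟩
    · rw [Metric.mem_ball, Real.dist_eq, hv3]
      refine lt_of_le_of_lt (le_of_eq ?_) hk
      congr 1
      rw [hδ]
      ring
    · rw [hv3, hmij.1, hmij.2]
      have h1 : iv (Pi.single x 1 : ι → ℤ) = Pi.single x (1 : ℝ) := by
        funext y
        by_cases hy : y = x
        · subst hy; simp [iv]
        · simp [iv, hy]
      rw [h1, dotProduct_single]
      simpa using hx
  · obtain ⟨v, hv1, hv2, hv3⟩ := fam 0 rfl rfl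
    obtain ⟨k, hk, hk'⟩ := win (l i * c + l j * d)
    have h0 : ∀ n : ι → ℝ, n ⬝ᵥ iv (0 : ι → ℤ) = 0 := by
      intro n
      simp [iv, dotProduct]
    have hin : ∀ k : ℤ, |l i * c + l j * d + k * δ - t| < ε → l ⬝ᵥ iv (v k) ∈ Metric.ball t ε := by
      intro k hk
      rw [Metric.mem_ball, Real.dist_eq, hv3, h0]
      refine lt_of_le_of_lt (le_of_eq ?_) hk
      congr 1
      rw [hδ]
      ring
    by_cases hz : m ⬝ᵥ iv (v k) = 0
    · by_cases hz' : m ⬝ᵥ iv (v (k + 1)) = 0
      · exfalso
        rw [hv3, h0] at hz hz'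
        push_cast at hz'
        have e1 : m i * a + m j * b = 0 := by linear_combination hz' - hz
        have e2 : m i * c + m j * d = 0 := by linear_combination hz - k * e1
        have hdet' : (a : ℝ) * d - b * c = 1 := by exact_mod_cast hdet
        apply hmij
        constructor
        · linear_combination d * e1 - b * e2 - m i * hdet'
        · linear_combination a * e2 - c * e1 - m j * hdet'
      · exact ⟨_, hin (k + 1) (by exact_mod_cast hk'), iv (v (k + 1)), hv1 _, hz', rfl⟩
    · exact ⟨_, hin k hk, iv (v k), hv1 _, hz, rfl⟩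

/-! ### Pencils -/

theorem rank_one_of_minors {ι : Type} {M : Matrix ι ι ℝ}
    (h : ∀ i j k l, M i j * M k l = M i l * M k j) : ∃ v v' : ι → ℝ, M = vecMulVec v v' := by
  by_cases h0 : ∃ i j, M i j ≠ 0
  · obtain ⟨i0, j0, h0⟩ := h0
    refine ⟨fun i => M i j0, fun j => M i0 j / M i0 j0, ?_⟩
    ext i j
    rw [vecMulVec_apply, ← mul_div_assoc, eq_div_iff h0]
    exact h i j i0 j0
  · push Not at h0
    refine ⟨0, 0, ?_⟩
    ext i j
    rw [h0, vecMulVec_apply]
    simp

/-- an integer matrix proportional to `l ⊗ l` gives an integer vector proportional to `l` -/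
theorem rational_of_square {ι : Type} {l : ι → ℝ} (hl : l ≠ 0) (R : Matrix ι ι ℤ) {c : ℝ}
    (hc : c ≠ 0) (h : im R = c • vecMulVec l l) :
    ∃ w : ι → ℤ, w ≠ 0 ∧ ∃ c : ℝ, iv w = c • l := by
  obtain ⟨i, hi⟩ := Function.ne_iff.1 hl
  have h1 : ∀ j, (R i j : ℝ) = c * (l i * l j) := by
    intro j
    have := congrFun (congrFun h i) j
    simpa [im, vecMulVec_apply] using this
  refine ⟨R i, ?_, c * l i, ?_⟩
  · intro h0
    have h2 := h1 i
    rw [h0] at h2
    simp at h2
    rcases h2 with h2 | h2
    · exact hc h2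
    · exact hi h2
  · funext j
    simp only [iv, Pi.smul_apply, smul_eq_mul]
    rw [h1]
    ring

theorem dep_of_prop {ι : Type} (R R' : Matrix ι ι ℤ) {x y : ℝ} (hxy : x ≠ 0 ∨ y ≠ 0)
    (h : x • im R + y • im R' = 0) : ∃ a b : ℤ, a • R + b • R' = 0 ∧ ¬ (a = 0 ∧ b = 0) := by
  have h1 : ∀ i j, x * R i j + y * R' i j = 0 := by
    intro i j
    have := congrFun (congrFun h i) j
    simpa [im] using this
  by_cases h0 : ∃ i j, R i j ≠ 0 ∨ R' i j ≠ 0
  · obtain ⟨i, j, hij⟩ := h0
    refine ⟨R' i j, -R i j, ?_, ?_⟩
    · ext k l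
      have e1 := h1 i j
      have e2 := h1 k l
      have e3 : ((R' i j * R k l - R i j * R' k l : ℤ) : ℝ) = 0 := by
        push_cast
        rcases hxy with hx | hy
        · have : x * ((R' i j : ℝ) * R k l - R i j * R' k l) = 0 := by
            linear_combination (R' i j : ℝ) * e2 - (R' k l : ℝ) * e1
          exact (mul_eq_zero.1 this).resolve_left hx
        · have : y * ((R' i j : ℝ) * R k l - R i j * R' k l) = 0 := by
            linear_combination (R k l : ℝ) * e1 - (R i j : ℝ) * e2
          exact (mul_eq_zero.1 this).resolve_left hy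
      have e4 : R' i j * R k l - R i j * R' k l = 0 := by exact_mod_cast e3
      simp only [Matrix.add_apply, Matrix.smul_apply, smul_eq_mul, Matrix.zero_apply]
      linarith
    · rintro ⟨h2, h3⟩
      rcases hij with h4 | h4
      · exact h4 (by linarith)
      · exact h4 h2
  · push Not at h0
    refine ⟨1, 0, ?_, by simp⟩
    ext i j
    simp [(h0 i j).1]

/-- pencil lemma -/
theorem pencil {ι : Type} [Fintype ι] (Q : Matrix ι ι ℝ) (l : ι → ℝ) (hl : l ≠ 0)
    (hrk : ∀ a b : ℝ, a ≠ 0 → ¬ ∃ v v' : ι → ℝ, a • Q + b • vecMulVec l l = vecMulVec v v')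
    (R R' : Matrix ι ι ℤ) (hR : ∃ a b : ℝ, im R = a • Q + b • vecMulVec l l)
    (hR' : ∃ a b : ℝ, im R' = a • Q + b • vecMulVec l l)
    (hind : ∀ a b : ℤ, a • R + b • R' = 0 → a = 0 ∧ b = 0) :
    ∃ w : ι → ℤ, w ≠ 0 ∧ ∃ c : ℝ, iv w = c • l := by
  obtain ⟨a1, b1, h1⟩ := hR
  obtain ⟨a2, b2, h2⟩ := hR'
  have hdep : ∀ x y : ℝ, x ≠ 0 ∨ y ≠ 0 → x • im R + y • im R' ≠ 0 := by
    intro x y hxy h0
    obtain ⟨a, b, hab, hn⟩ := dep_of_prop R R' hxy h0
    exact hn (hind a b hab)
  -- the coefficients of `Q` are not both zero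
  have ha : a1 ≠ 0 ∨ a2 ≠ 0 := by
    by_contra hcon
    push Not at hcon
    obtain ⟨r1, r2⟩ := hcon
    by_cases hb : b1 = 0
    · refine hdep 1 0 (Or.inl one_ne_zero) ?_
      rw [h1, r1, hb]
      simp
    · refine hdep b2 (-b1) (Or.inr (neg_ne_zero.2 hb)) ?_
      rw [h1, h2, r1, r2]
      ext i j
      simp
      ring
  -- the combination eliminating `Q`
  have hcomb : ∀ x y : ℝ, x • im R + y • im R' =
      (x * a1 + y * a2) • Q + (x * b1 + y * b2) • vecMulVec l l := by
    intro x y
    rw [h1, h2]
    ext i j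
    simp
    ring
  by_cases ha1 : a1 = 0
  · -- `R` itself is a multiple of the square
    have hb : b1 ≠ 0 := by
      intro hb
      refine hdep 1 0 (Or.inl one_ne_zero) ?_
      rw [h1, ha1, hb]
      simp
    refine rational_of_square hl R hb ?_
    rw [h1, ha1]
    simp
  · set t0 : ℝ := -a2 / a1 with ht0
    have e0 : t0 * a1 + a2 = 0 := by
      rw [ht0]
      field_simp
      ring
    set β := t0 * b1 + b2 with hβ
    have hM0 : t0 • im R + im R' = β • vecMulVec l l := by
      have := hcomb t0 1
      rw [one_smul, one_mul, one_mul, e0, zero_smul, zero_add] at this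
      exact this
    have hβ0 : β ≠ 0 := by
      intro h0
      rw [h0, zero_smul] at hM0
      exact hdep t0 1 (Or.inr one_ne_zero) (by rw [one_smul]; exact hM0)
    have ent : ∀ i j, t0 * R i j + R' i j = β * (l i * l j) := by
      intro i j
      have := congrFun (congrFun hM0 i) j
      simpa [im, vecMulVec_apply] using this
    by_cases hrat : Irrational t0
    · exfalso
      -- coefficients of the minors
      let A : ι → ι → ι → ι → ℤ := fun i j k l => R i j * R k l - R i l * R k j
      let B : ι → ι → ι → ι → ℤ := fun i j k l =>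
        R i j * R' k l + R' i j * R k l - R i l * R' k j - R' i l * R k j
      let C : ι → ι → ι → ι → ℤ := fun i j k l => R' i j * R' k l - R' i l * R' k j
      have minor : ∀ (t : ℝ) i j k l, (t * R i j + R' i j) * (t * R k l + R' k l) -
          (t * R i l + R' i l) * (t * R k j + R' k j) =
          A i j k l * t ^ 2 + B i j k l * t + C i j k l := by
        intro t i j k l
        simp only [A, B, C]
        push_cast
        ring
      have root : ∀ i j k l, (A i j k l : ℝ) * t0 ^ 2 + B i j k l * t0 + C i j k l = 0 := by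
        intro i j k l'
        rw [← minor, ent, ent, ent, ent]
        ring
      -- rank one at a parameter contradicts the hypothesis
      have bad : ∀ t : ℝ, t ≠ t0 → (∀ i j k l, (A i j k l : ℝ) * t ^ 2 + B i j k l * t + C i j k l = 0) →
          False := by
        intro t ht hz
        have hc := hcomb t 1
        have hne : t * a1 + 1 * a2 ≠ 0 := by
          intro h0
          apply ht
          have : (t - t0) * a1 = 0 := by linear_combination h0 - e0
          have := (mul_eq_zero.1 this).resolve_right ha1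
          linarith
        refine hrk _ (t * b1 + 1 * b2) hne ?_
        rw [← hc]
        refine rank_one_of_minors fun i j k l' => ?_
        have := minor t i j k l'
        rw [hz] at this
        simp only [Matrix.add_apply, Matrix.smul_apply, smul_eq_mul, one_mul, im]
        linarith
      have irr : ∀ p q : ℤ, (p : ℝ) * t0 + q = 0 → p = 0 ∧ q = 0 := by
        intro p q hpq
        have hp : p = 0 := by
          by_contra hp
          have hp' : (p : ℝ) ≠ 0 := by exact_mod_cast hp
          apply hrat
          refine ⟨-q / p, ?_⟩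
          push_cast
          field_simp
          linarith
        refine ⟨hp, ?_⟩
        rw [hp] at hpq
        simp at hpq
        exact hpq
      by_cases hall : ∀ i j k l, A i j k l = 0
      · refine bad (t0 + 1) (by linarith) fun i j k l' => ?_
        have h3 := root i j k l'
        rw [hall] at h3
        have h4 := irr (B i j k l') (C i j k l') (by
          have : ((0 : ℤ) : ℝ) * t0 ^ 2 = 0 := by simp
          linarith)
        rw [hall, h4.1, h4.2]
        simp
      · push Not at hall
        obtain ⟨i0, j0, k0, l0, hA⟩ := hall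
        set P := A i0 j0 k0 l0 with hP
        set S := B i0 j0 k0 l0 with hS
        set T := C i0 j0 k0 l0 with hT
        have hA' : (P : ℝ) ≠ 0 := by exact_mod_cast hA
        have r0 := root i0 j0 k0 l0
        rw [← hP, ← hS, ← hT] at r0
        set t1 : ℝ := -S / P - t0 with ht1
        have r1 : (P : ℝ) * t1 ^ 2 + S * t1 + T = 0 := by
          have e1 : (P : ℝ) * t1 = -S - P * t0 := by
            rw [ht1]
            field_simp
          have e2 : (P : ℝ) * ((P : ℝ) * t1 ^ 2 + S * t1 + T) = 0 := by
            linear_combination ((P : ℝ) * t1 + (-S - P * t0) + S) * e1 + (P : ℝ) * r0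
          exact (mul_eq_zero.1 e2).resolve_left hA'
        refine bad t1 ?_ fun i j k l' => ?_
        · intro h0
          apply hrat
          refine ⟨-S / (2 * P), ?_⟩
          have e1 : (P : ℝ) * t1 = -S - P * t0 := by
            rw [ht1]
            field_simp
          rw [h0] at e1
          push_cast
          field_simp
          linarith
        · have r2 := root i j k l'
          set P' := A i j k l'
          set S' := B i j k l'
          set T' := C i j k l'
          have h5 := irr (P' * S - P * S') (P' * T - P * T') (by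
            push_cast
            linear_combination (P' : ℝ) * r0 - (P : ℝ) * r2)
          have h6 : (P' : ℝ) * S = P * S' := by
            have := h5.1
            have h7 : P' * S = P * S' := by linarith
            exact_mod_cast h7
          have h7 : (P' : ℝ) * T = P * T' := by
            have := h5.2
            have h8 : P' * T = P * T' := by linarith
            exact_mod_cast h8
          have h8 : (P : ℝ) * ((P' : ℝ) * t1 ^ 2 + S' * t1 + T') = 0 := by
            linear_combination (P' : ℝ) * r1 - t1 * h6 - h7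
          exact (mul_eq_zero.1 h8).resolve_left hA'
    · unfold Irrational at hrat
      rw [not_not] at hrat
      obtain ⟨q, hq⟩ := hrat
      have hden : (q.den : ℝ) ≠ 0 := by exact_mod_cast q.den_ne_zero
      refine rational_of_square hl (q.num • R + (q.den : ℤ) • R')
        (c := q.den * β) (mul_ne_zero hden hβ0) ?_
      have h3 : ((q : ℚ) : ℝ) * (q.den : ℝ) = q.num := by
        have := Rat.mul_den_eq_num q
        exact_mod_cast this
      ext i j
      have h4 := ent i j
      simp only [im, Matrix.add_apply, Matrix.smul_apply, smul_eq_mul, vecMulVec_apply]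
      push_cast
      rw [← h3, hq]
      linear_combination (q.den : ℝ) * h4

theorem dense_linS : dense_linStatement := dense_lin

theorem pencilS : pencilStatement := pencil

end QL.H76
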