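import Pool.Agent.Helper27_QL.Stmt

/-!
# Module M4: Mahler's criterion
-/

set_option autoImplicit false
set_option linter.unusedSectionVars false
set_option linter.unusedSimpArgs false
open Matrix Polynomial MeasureTheory Set Filter Topology

namespace QL.H76

section Red

variable {ι : Type} [Fintype ι] [DecidableEq ι]

/-- value of a quadratic form -/
def qv (A : Matrix ι ι ℝ) (v : ι → ℝ) : ℝ := v ⬝ᵥ A *ᵥ v

/-- coercive symmetric matrices -/
def Coer (A : Matrix ι ι ℝ) : Prop := Aᵀ = A ∧ ∃ c : ℝ, 0 < c ∧ ∀ v : ι → ℝ, c * (v ⬝ᵥ v) ≤ qv A v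

/-- the columns of integer matrices invertible over the integers have value at least `m` -/
def Lower (A : Matrix ι ι ℝ) (m : ℝ) : Prop :=
  ∀ γ : Matrix ι ι ℤ, IsUnit γ.det → ∀ j, m ≤ qv A (fun i => (γ i j : ℝ))

theorem qv_mul (A g : Matrix ι ι ℝ) (v : ι → ℝ) : qv (gᵀ * A * g) v = qv A (g *ᵥ v) := by
  unfold qv
  rw [← Matrix.mulVec_mulVec, ← Matrix.mulVec_mulVec, Matrix.dotProduct_mulVec, Matrix.vecMul_transpose]

theorem coer_mul {A g : Matrix ι ι ℝ} (hA : Coer A) (hg : IsUnit g.det) : Coer (gᵀ * A * g) := by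
  obtain ⟨hs, c, hc, h⟩ := hA
  refine ⟨?_, ?_⟩
  · rw [Matrix.transpose_mul, Matrix.transpose_mul, Matrix.transpose_transpose, hs, Matrix.mul_assoc]
  · set K : ℝ := ∑ i, ∑ j, (g⁻¹ i j) ^ 2 with hK
    have hK0 : 0 ≤ K := Finset.sum_nonneg fun i _ => Finset.sum_nonneg fun j _ => sq_nonneg _
    refine ⟨c / (K + 1), by positivity, fun v => ?_⟩
    rw [qv_mul]
    refine le_trans ?_ (h (g *ᵥ v))
    have h1 : v ⬝ᵥ v ≤ K * ((g *ᵥ v) ⬝ᵥ (g *ᵥ v)) := by
      have h2 : g⁻¹ *ᵥ (g *ᵥ v) = v := by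
        rw [Matrix.mulVec_mulVec, Matrix.nonsing_inv_mul _ hg, Matrix.one_mulVec]
      calc v ⬝ᵥ v = ∑ i, (g⁻¹ *ᵥ (g *ᵥ v)) i ^ 2 := by
            rw [h2]
            simp only [dotProduct, sq]
        _ ≤ ∑ i, (∑ j, (g⁻¹ i j) ^ 2) * ((g *ᵥ v) ⬝ᵥ (g *ᵥ v)) := by
            refine Finset.sum_le_sum fun i _ => ?_
            have := Finset.sum_mul_sq_le_sq_mul_sq Finset.univ (fun j => g⁻¹ i j) (g *ᵥ v)
            simpa [Matrix.mulVec, dotProduct, sq] using this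
        _ = _ := by rw [← Finset.sum_mul]
    have h3 : 0 ≤ (g *ᵥ v) ⬝ᵥ (g *ᵥ v) := by
      simp only [dotProduct]
      exact Finset.sum_nonneg fun i _ => mul_self_nonneg _
    rw [div_mul_eq_mul_div, div_le_iff₀ (by positivity)]
    nlinarith

theorem lower_mul {A : Matrix ι ι ℝ} {m : ℝ} (h : Lower A m) {γ : Matrix ι ι ℤ} (hγ : IsUnit γ.det) :
    Lower ((γ.map (Int.cast : ℤ → ℝ))ᵀ * A * γ.map (Int.cast : ℤ → ℝ)) m := by
  intro δ hδ j
  rw [qv_mul]
  have h1 := h (γ * δ) (by rw [Matrix.det_mul]; exact hγ.mul hδ) j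
  have h2 : (fun i => (((γ * δ) i j : ℤ) : ℝ)) = γ.map (Int.cast : ℤ → ℝ) *ᵥ fun i => (δ i j : ℝ) := by
    funext i
    simp [Matrix.mul_apply, Matrix.mulVec, dotProduct]
  rw [← h2]
  exact h1

/-- the minimum is attained -/
theorem exists_min [Nonempty ι] {A : Matrix ι ι ℝ} (hA : Coer A) (j0 : ι) :
    ∃ γ : Matrix ι ι ℤ, IsUnit γ.det ∧ Lower A (qv A (fun i => (γ i j0 : ℝ))) := by
  obtain ⟨hs, c, hc, h⟩ := hA
  set S : Set (ι → ℤ) := {v | (∃ γ : Matrix ι ι ℤ, IsUnit γ.det ∧ ∃ j, v = fun i => γ i j) ∧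
    qv A (fun i => (v i : ℝ)) ≤ qv A (fun i => ((1 : Matrix ι ι ℤ) i j0 : ℝ))} with hS
  have hne : S.Nonempty := ⟨fun i => (1 : Matrix ι ι ℤ) i j0, ⟨1, by simp, j0, rfl⟩, le_rfl⟩
  have hfin : S.Finite := by
    set R := qv A (fun i => ((1 : Matrix ι ι ℤ) i j0 : ℝ)) with hR
    obtain ⟨N, hN⟩ := exists_nat_gt (R / c)
    refine (Set.finite_Icc (fun _ : ι => -(N : ℤ)) (fun _ => (N : ℤ))).subset ?_
    rintro v ⟨-, hv⟩
    have h1 : ∀ i, (v i : ℝ) ^ 2 ≤ N := by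
      intro i
      have h2 := h (fun i => (v i : ℝ))
      have h3 : (v i : ℝ) ^ 2 ≤ (fun i => (v i : ℝ)) ⬝ᵥ (fun i => (v i : ℝ)) := by
        simp only [dotProduct]
        rw [sq]
        exact Finset.single_le_sum (f := fun i => (v i : ℝ) * (v i : ℝ))
          (fun i _ => mul_self_nonneg _) (Finset.mem_univ i)
      have h4 : c * (v i : ℝ) ^ 2 ≤ R := by
        calc c * (v i : ℝ) ^ 2 ≤ c * ((fun i => (v i : ℝ)) ⬝ᵥ (fun i => (v i : ℝ))) := by gcongr
          _ ≤ R := h2.trans hv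
      have h5 : (v i : ℝ) ^ 2 ≤ R / c := by
        rw [le_div_iff₀ hc]
        linarith
      linarith
    have h2 : ∀ i, |v i| ≤ N := by
      intro i
      have h3 := h1 i
      have h4 : (v i) ^ 2 ≤ (N : ℤ) := by exact_mod_cast h3
      by_contra hc'
      push Not at hc'
      have h5 : (N : ℤ) < |v i| := hc'
      have h6 : |v i| * 1 ≤ |v i| * |v i| := by
        refine mul_le_mul_of_nonneg_left ?_ (abs_nonneg _)
        have : (0 : ℤ) ≤ N := Int.natCast_nonneg N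
        linarith
      have h7 : |v i| * |v i| = v i ^ 2 := by rw [← sq, sq_abs]
      linarith
    exact ⟨fun i => (abs_le.1 (h2 i)).1, fun i => (abs_le.1 (h2 i)).2⟩
  obtain ⟨v, ⟨⟨γ, hγ, j, rfl⟩, hv1⟩, hv2⟩ := Set.exists_min_image S
    (fun v => qv A (fun i => (v i : ℝ))) hfin hne
  refine ⟨γ.submatrix id (Equiv.swap j j0), ?_, ?_⟩
  · rw [Matrix.det_permute']
    exact (Units.isUnit _).mul hγ
  · intro δ hδ k
    simp only [Matrix.submatrix_apply, id, Equiv.swap_apply_right]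
    rcases le_total (qv A (fun i => (δ i k : ℝ))) (qv A (fun i => ((1 : Matrix ι ι ℤ) i j0 : ℝ)))
      with h1 | h1
    · exact hv2 (fun i => δ i k) ⟨⟨δ, hδ, k, rfl⟩, h1⟩
    · exact hv1.trans h1

end Red

section Step

variable {ι : Type} [Fintype ι] [DecidableEq ι]

/-- Schur complement -/
noncomputable def schur (A : Matrix (ι ⊕ Unit) (ι ⊕ Unit) ℝ) : Matrix ι ι ℝ := fun i j =>
  A (Sum.inl i) (Sum.inl j) - A (Sum.inl i) (Sum.inr ()) * A (Sum.inr ()) (Sum.inl j) /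
    A (Sum.inr ()) (Sum.inr ())

/-- the linear form of the completed square -/
noncomputable def bb (A : Matrix (ι ⊕ Unit) (ι ⊕ Unit) ℝ) : ι → ℝ := fun j =>
  A (Sum.inr ()) (Sum.inl j) / A (Sum.inr ()) (Sum.inr ())

theorem schur_eq {A : Matrix (ι ⊕ Unit) (ι ⊕ Unit) ℝ} (hs : Aᵀ = A)
    (ha : A (Sum.inr ()) (Sum.inr ()) ≠ 0) :
    A = (fromBlocks (1 : Matrix ι ι ℝ) 0 (Matrix.of fun _ j => bb A j) (1 : Matrix Unit Unit ℝ))ᵀ *
      fromBlocks (schur A) 0 0 (Matrix.of fun _ _ => A (Sum.inr ()) (Sum.inr ())) *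
      fromBlocks (1 : Matrix ι ι ℝ) 0 (Matrix.of fun _ j => bb A j) (1 : Matrix Unit Unit ℝ) := by
  have hs' : ∀ i j, A i j = A j i := fun i j => by
    conv_lhs => rw [← hs]
    rfl
  rw [fromBlocks_transpose, fromBlocks_multiply, fromBlocks_multiply]
  ext i j
  rcases i with i | ⟨⟩ <;> rcases j with j | ⟨⟩
  · simp [Matrix.mul_apply, schur, bb]
    rw [hs' (Sum.inl i) (Sum.inr ())]
    field_simp
    ring
  · simp [Matrix.mul_apply, bb]
    rw [hs' (Sum.inl i) (Sum.inr ())]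
    field_simp
  · simp [Matrix.mul_apply, bb]
    field_simp
  · simp [Matrix.mul_apply]

theorem det_schur {A : Matrix (ι ⊕ Unit) (ι ⊕ Unit) ℝ} (hs : Aᵀ = A)
    (ha : A (Sum.inr ()) (Sum.inr ()) ≠ 0) :
    A.det = (schur A).det * A (Sum.inr ()) (Sum.inr ()) := by
  conv_lhs => rw [schur_eq hs ha]
  rw [Matrix.det_mul, Matrix.det_mul, Matrix.det_transpose, det_fromBlocks_zero₁₂,
    det_fromBlocks_zero₁₂]
  simp

theorem qv_schur {A : Matrix (ι ⊕ Unit) (ι ⊕ Unit) ℝ} (hs : Aᵀ = A)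
    (ha : A (Sum.inr ()) (Sum.inr ()) ≠ 0) (v : ι → ℝ) (t : ℝ) :
    qv A (Sum.elim v fun _ => t) = A (Sum.inr ()) (Sum.inr ()) * (bb A ⬝ᵥ v + t) ^ 2 +
      qv (schur A) v := by
  conv_lhs => rw [schur_eq hs ha]
  rw [qv_mul]
  have h1 : fromBlocks (1 : Matrix ι ι ℝ) 0 (Matrix.of fun _ j => bb A j) (1 : Matrix Unit Unit ℝ) *ᵥ
      (Sum.elim v fun _ => t) = Sum.elim v fun _ => bb A ⬝ᵥ v + t := by
    funext i
    rcases i with i | ⟨⟩
    · simp [Matrix.fromBlocks_mulVec]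
    · simp [Matrix.fromBlocks_mulVec, Matrix.mulVec, dotProduct]
  rw [h1]
  unfold qv
  rw [Matrix.fromBlocks_mulVec]
  simp [dotProduct, Matrix.mulVec]
  ring

theorem coer_schur {A : Matrix (ι ⊕ Unit) (ι ⊕ Unit) ℝ} (hA : Coer A) :
    0 < A (Sum.inr ()) (Sum.inr ()) ∧ Coer (schur A) := by
  obtain ⟨hs, c, hc, h⟩ := hA
  have ha : 0 < A (Sum.inr ()) (Sum.inr ()) := by
    have h1 := h (Sum.elim 0 fun _ => 1)
    have h2 : qv A (Sum.elim 0 fun _ => 1) = A (Sum.inr ()) (Sum.inr ()) := by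
      simp [qv, Matrix.mulVec, dotProduct]
    have h3 : (Sum.elim (0 : ι → ℝ) fun _ : Unit => (1 : ℝ)) ⬝ᵥ (Sum.elim 0 fun _ => 1) = 1 := by
      simp [dotProduct]
    rw [h2, h3] at h1
    linarith
  refine ⟨ha, ?_, c, hc, fun v => ?_⟩
  · have hs' : ∀ i j, A i j = A j i := fun i j => by
      conv_lhs => rw [← hs]
      rfl
    ext i j
    simp only [Matrix.transpose_apply, schur]
    rw [hs' (Sum.inl j) (Sum.inl i), hs' (Sum.inl j) (Sum.inr ()), hs' (Sum.inr ()) (Sum.inl i)]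
    ring
  · have h1 := h (Sum.elim v fun _ => -(bb A ⬝ᵥ v))
    rw [qv_schur hs ha.ne'] at h1
    have h3 : v ⬝ᵥ v ≤ (Sum.elim v fun _ : Unit => -(bb A ⬝ᵥ v)) ⬝ᵥ
        (Sum.elim v fun _ => -(bb A ⬝ᵥ v)) := by
      simp only [dotProduct, Fintype.sum_sum_type, Sum.elim_inl, Sum.elim_inr]
      simp
      exact mul_self_nonneg _
    have h4 : c * (v ⬝ᵥ v) ≤ c * ((Sum.elim v fun _ : Unit => -(bb A ⬝ᵥ v)) ⬝ᵥ
        (Sum.elim v fun _ => -(bb A ⬝ᵥ v))) := by gcongr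
    have h5 : A (Sum.inr ()) (Sum.inr ()) * (bb A ⬝ᵥ v + -(bb A ⬝ᵥ v)) ^ 2 = 0 := by
      rw [add_neg_cancel]
      simp
    linarith

/-- lift of an integer matrix -/
noncomputable def lift (A : Matrix (ι ⊕ Unit) (ι ⊕ Unit) ℝ) (γ : Matrix ι ι ℤ) :
    Matrix (ι ⊕ Unit) (ι ⊕ Unit) ℤ :=
  fromBlocks γ 0 (Matrix.of fun _ j => -round (bb A ⬝ᵥ fun i => (γ i j : ℝ))) 1

theorem lift_det (A : Matrix (ι ⊕ Unit) (ι ⊕ Unit) ℝ) (γ : Matrix ι ι ℤ) :
    (lift A γ).det = γ.det := by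
  unfold lift
  rw [det_fromBlocks_zero₁₂]
  simp

theorem lift_col (A : Matrix (ι ⊕ Unit) (ι ⊕ Unit) ℝ) (γ : Matrix ι ι ℤ) (j : ι) :
    (fun i => (lift A γ i (Sum.inl j) : ℝ)) = Sum.elim (fun i => (γ i j : ℝ))
      fun _ => -(round (bb A ⬝ᵥ fun i => (γ i j : ℝ)) : ℝ) := by
  funext i
  rcases i with i | ⟨⟩ <;> simp [lift]

theorem lift_val {A : Matrix (ι ⊕ Unit) (ι ⊕ Unit) ℝ} (hA : Coer A) (γ : Matrix ι ι ℤ) (j : ι) :
    qv A (fun i => (lift A γ i (Sum.inl j) : ℝ)) ≤ A (Sum.inr ()) (Sum.inr ()) / 4 +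
      qv (schur A) (fun i => (γ i j : ℝ)) := by
  have ha := (coer_schur hA).1
  rw [lift_col, qv_schur hA.1 ha.ne']
  have h1 : (bb A ⬝ᵥ (fun i => (γ i j : ℝ)) +
      -(round (bb A ⬝ᵥ fun i => (γ i j : ℝ)) : ℝ)) ^ 2 ≤ 1 / 4 := by
    have h2 := abs_sub_round (bb A ⬝ᵥ fun i => (γ i j : ℝ))
    rw [← sub_eq_add_neg, ← sq_abs]
    nlinarith [abs_nonneg (bb A ⬝ᵥ (fun i => (γ i j : ℝ)) - round (bb A ⬝ᵥ fun i => (γ i j : ℝ)))]
  nlinarith

/-- value at the last column of the lift -/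
theorem lift_last {A : Matrix (ι ⊕ Unit) (ι ⊕ Unit) ℝ} (γ : Matrix ι ι ℤ) (j : Unit) :
    qv A (fun i => (lift A γ i (Sum.inr j) : ℝ)) = A (Sum.inr ()) (Sum.inr ()) := by
  have h : (fun i => (lift A γ i (Sum.inr j) : ℝ)) = Sum.elim (fun _ => 0) (fun _ => 1) := by
    funext i
    rcases i with i | ⟨⟩ <;> simp [lift]
  rw [h]
  simp [qv, Matrix.mulVec, dotProduct]

theorem lower_schur {A : Matrix (ι ⊕ Unit) (ι ⊕ Unit) ℝ} (hA : Coer A)
    (hL : Lower A (A (Sum.inr ()) (Sum.inr ()))) :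
    Lower (schur A) (3 / 4 * A (Sum.inr ()) (Sum.inr ())) := by
  intro γ hγ j
  have h1 := hL (lift A γ) (by rw [lift_det]; exact hγ) (Sum.inl j)
  have h2 := lift_val hA γ j
  linarith

/-- reduction to a matrix whose last entry is minimal -/
theorem exists_red {A : Matrix (ι ⊕ Unit) (ι ⊕ Unit) ℝ} (hA : Coer A) :
    ∃ γ : Matrix (ι ⊕ Unit) (ι ⊕ Unit) ℤ, IsUnit γ.det ∧ ∃ B : Matrix (ι ⊕ Unit) (ι ⊕ Unit) ℝ,
      B = (γ.map (Int.cast : ℤ → ℝ))ᵀ * A * γ.map (Int.cast : ℤ → ℝ) ∧ Coer B ∧ B.det = A.det ∧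
      Lower B (B (Sum.inr ()) (Sum.inr ())) := by
  obtain ⟨γ, hγ, hL⟩ := exists_min hA (Sum.inr () : ι ⊕ Unit)
  have hdet : (γ.map (Int.cast : ℤ → ℝ)).det = (γ.det : ℝ) := by
    have := (Int.castRingHom ℝ).map_det γ
    simpa using this.symm
  have hu : IsUnit (γ.map (Int.cast : ℤ → ℝ)).det := by
    rw [hdet]
    have := hγ.map (Int.castRingHom ℝ)
    simpa using this
  refine ⟨γ, hγ, _, rfl, coer_mul hA hu, ?_, ?_⟩
  · rw [Matrix.det_mul, Matrix.det_mul, Matrix.det_transpose, hdet]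
    rcases Int.isUnit_iff.1 hγ with h | h <;> rw [h] <;> simp
  · have h1 : ((γ.map (Int.cast : ℤ → ℝ))ᵀ * A * γ.map (Int.cast : ℤ → ℝ)) (Sum.inr ()) (Sum.inr ()) =
        qv A (fun i => (γ i (Sum.inr ()) : ℝ)) := by
      have h2 : (fun i => (γ i (Sum.inr ()) : ℝ)) = γ.map (Int.cast : ℤ → ℝ) *ᵥ
          (Pi.single (Sum.inr ()) 1) := by
        rw [Matrix.mulVec_single_one]
        rfl
      rw [h2, ← qv_mul]
      unfold qv
      rw [Matrix.mulVec_single_one]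
      simp
    rw [h1]
    exact lower_mul hL hγ

end Step

/-- Hermite's inequality -/
def Herm (ι : Type) [Fintype ι] [DecidableEq ι] : Prop :=
  ∃ c : ℝ, 0 < c ∧ ∀ A : Matrix ι ι ℝ, Coer A → ∀ m : ℝ, 0 < m → Lower A m →
    c * m ^ Fintype.card ι ≤ A.det

/-- reduction theory -/
def Goodn (ι : Type) [Fintype ι] [DecidableEq ι] : Prop :=
  ∀ D ε : ℝ, 0 < ε → ∃ C : ℝ, ∀ A : Matrix ι ι ℝ, Coer A → A.det ≤ D → Lower A ε →
    ∃ γ : Matrix ι ι ℤ, IsUnit γ.det ∧ ∀ j, qv A (fun i => (γ i j : ℝ)) ≤ C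

theorem step_herm {ι : Type} [Fintype ι] [DecidableEq ι] (h : Herm ι) : Herm (ι ⊕ Unit) := by
  obtain ⟨c, hc, h⟩ := h
  refine ⟨c * (3 / 4) ^ Fintype.card ι, by positivity, fun A hA m hm hL => ?_⟩
  obtain ⟨γ, hγ, B, hB, hBc, hBd, hBL⟩ := exists_red hA
  obtain ⟨ha, hs⟩ := coer_schur hBc
  set a := B (Sum.inr ()) (Sum.inr ()) with haa
  have h1 := h (schur B) hs (3 / 4 * a) (by positivity) (lower_schur hBc hBL)
  have hma : m ≤ a := by
    have h2 : Lower B m := hB ▸ lower_mul hL hγ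
    have h3 := h2 1 (by simp) (Sum.inr ())
    have h4 : qv B (fun i => ((1 : Matrix (ι ⊕ Unit) (ι ⊕ Unit) ℤ) i (Sum.inr ()) : ℝ)) = a := by
      have h5 : (fun i => ((1 : Matrix (ι ⊕ Unit) (ι ⊕ Unit) ℤ) i (Sum.inr ()) : ℝ)) =
          Sum.elim (fun _ => 0) (fun _ => 1) := by
        funext i
        rcases i with i | ⟨⟩ <;> simp [Matrix.one_apply]
      rw [h5]
      simp [qv, Matrix.mulVec, dotProduct, haa]
    rw [h4] at h3
    exact h3
  rw [← hBd, det_schur hBc.1 ha.ne', Fintype.card_sum, Fintype.card_unit, pow_succ]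
  calc c * (3 / 4) ^ Fintype.card ι * (m ^ Fintype.card ι * m)
      ≤ c * (3 / 4) ^ Fintype.card ι * (a ^ Fintype.card ι * a) := by gcongr
    _ = (c * (3 / 4 * a) ^ Fintype.card ι) * a := by rw [mul_pow]; ring
    _ ≤ (schur B).det * a := by gcongr

theorem step_good {ι : Type} [Fintype ι] [DecidableEq ι] (hH : Herm (ι ⊕ Unit)) (h : Goodn ι) :
    Goodn (ι ⊕ Unit) := by
  intro D ε hε
  obtain ⟨c, hc, hH⟩ := hH
  obtain ⟨C, hC⟩ := h (max D 0 / ε) (3 / 4 * ε) (by positivity)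
  refine ⟨|C| + max 1 (D / c), fun A hA hD hL => ?_⟩
  obtain ⟨γ, hγ, B, hB, hBc, hBd, hBL⟩ := exists_red hA
  obtain ⟨ha, hs⟩ := coer_schur hBc
  set a := B (Sum.inr ()) (Sum.inr ()) with haa
  have hεa : ε ≤ a := by
    have h2 : Lower B ε := hB ▸ lower_mul hL hγ
    have h3 := h2 1 (by simp) (Sum.inr ())
    have h4 : qv B (fun i => ((1 : Matrix (ι ⊕ Unit) (ι ⊕ Unit) ℤ) i (Sum.inr ()) : ℝ)) = a := by
      have h5 : (fun i => ((1 : Matrix (ι ⊕ Unit) (ι ⊕ Unit) ℤ) i (Sum.inr ()) : ℝ)) =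
          Sum.elim (fun _ => 0) (fun _ => 1) := by
        funext i
        rcases i with i | ⟨⟩ <;> simp [Matrix.one_apply]
      rw [h5]
      simp [qv, Matrix.mulVec, dotProduct, haa]
    rw [h4] at h3
    exact h3
  have hab : a ≤ max 1 (D / c) := by
    by_contra hcon
    push Not at hcon
    have h1 : 1 < a := (le_max_left _ _).trans_lt hcon
    have h2 : D / c < a := (le_max_right _ _).trans_lt hcon
    have h3 := hH B hBc a ha hBL
    rw [hBd] at h3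
    have h4 : c * a ≤ c * a ^ Fintype.card (ι ⊕ Unit) := by
      gcongr
      refine le_self_pow₀ h1.le ?_
      simp
    rw [div_lt_iff₀ hc] at h2
    linarith
  have hLs : Lower (schur B) (3 / 4 * ε) := by
    intro δ hδ j
    have := lower_schur hBc hBL δ hδ j
    linarith
  have hds : (schur B).det ≤ max D 0 / ε := by
    have h1 := det_schur hBc.1 ha.ne'
    rw [hBd] at h1
    rw [le_div_iff₀ hε]
    rcases le_total (schur B).det 0 with h2 | h2
    · have : (schur B).det * ε ≤ 0 := mul_nonpos_of_nonpos_of_nonneg h2 hε.le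
      exact this.trans (le_max_right _ _)
    · calc (schur B).det * ε ≤ (schur B).det * a := by gcongr
        _ = A.det := h1.symm
        _ ≤ max D 0 := hD.trans (le_max_left _ _)
  obtain ⟨δ, hδ, hδC⟩ := hC (schur B) hs hds hLs
  have hcol : ∀ j, qv B (fun i => (lift B δ i j : ℝ)) ≤ |C| + max 1 (D / c) := by
    intro j
    rcases j with j | j
    · have h1 := lift_val hBc δ j
      have h2 := hδC j
      have h3 := le_abs_self C
      rw [← haa] at h1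
      linarith
    · rw [lift_last, ← haa]
      have := abs_nonneg C
      linarith
  refine ⟨γ * lift B δ, by rw [Matrix.det_mul, lift_det]; exact hγ.mul hδ, fun j => ?_⟩
  have h2 : (fun i => (((γ * lift B δ) i j : ℤ) : ℝ)) = γ.map (Int.cast : ℤ → ℝ) *ᵥ
      fun i => (lift B δ i j : ℝ) := by
    funext i
    simp [Matrix.mul_apply, Matrix.mulVec, dotProduct]
  rw [h2, ← qv_mul, ← hB]
  exact hcol j

section Equiv

variable {ι κ : Type} [Fintype ι] [DecidableEq ι] [Fintype κ] [DecidableEq κ]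

theorem qv_sub (e : ι ≃ κ) (A : Matrix κ κ ℝ) (v : ι → ℝ) :
    qv (A.submatrix e e) v = qv A (v ∘ e.symm) := by
  unfold qv
  rw [Matrix.submatrix_mulVec_equiv]
  simp only [dotProduct]
  refine Fintype.sum_equiv e _ _ fun i => ?_
  simp

theorem coer_sub (e : ι ≃ κ) {A : Matrix κ κ ℝ} (hA : Coer A) : Coer (A.submatrix e e) := by
  obtain ⟨hs, c, hc, h⟩ := hA
  refine ⟨by rw [Matrix.transpose_submatrix, hs], c, hc, fun v => ?_⟩
  rw [qv_sub]
  refine le_trans (le_of_eq ?_) (h _)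
  congr 1
  simp only [dotProduct]
  refine Fintype.sum_equiv e _ _ fun i => ?_
  simp

theorem lower_sub (e : ι ≃ κ) {A : Matrix κ κ ℝ} {m : ℝ} (h : Lower A m) :
    Lower (A.submatrix e e) m := by
  intro γ hγ j
  rw [qv_sub]
  have h1 := h (γ.submatrix e.symm e.symm) (by rw [Matrix.det_submatrix_equiv_self]; exact hγ) (e j)
  simpa [Function.comp_def] using h1

theorem herm_equiv (e : ι ≃ κ) (h : Herm ι) : Herm κ := by
  obtain ⟨c, hc, h⟩ := h
  refine ⟨c, hc, fun A hA m hm hL => ?_⟩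
  have h1 := h (A.submatrix e e) (coer_sub e hA) m hm (lower_sub e hL)
  rw [Matrix.det_submatrix_equiv_self, Fintype.card_congr e] at h1
  exact h1

theorem good_equiv (e : ι ≃ κ) (h : Goodn ι) : Goodn κ := by
  intro D ε hε
  obtain ⟨C, hC⟩ := h D ε hε
  refine ⟨C, fun A hA hD hL => ?_⟩
  obtain ⟨γ, hγ, hj⟩ := hC (A.submatrix e e) (coer_sub e hA)
    (by rw [Matrix.det_submatrix_equiv_self]; exact hD) (lower_sub e hL)
  refine ⟨γ.submatrix e.symm e.symm, by rw [Matrix.det_submatrix_equiv_self]; exact hγ,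
    fun j => ?_⟩
  have h1 := hj (e.symm j)
  rw [qv_sub] at h1
  simpa [Function.comp_def] using h1

end Equiv

theorem herm_fin (n : ℕ) : Herm (Fin n) := by
  induction n with
  | zero => exact ⟨1, one_pos, fun A _ m _ _ => by simp⟩
  | succ n ih => exact herm_equiv (Fintype.equivOfCardEq (by simp)) (step_herm ih)

theorem good_fin (n : ℕ) : Goodn (Fin n) := by
  induction n with
  | zero =>
    intro D ε _
    exact ⟨0, fun A _ _ _ => ⟨1, by simp, fun j => j.elim0⟩⟩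
  | succ n ih =>
    exact good_equiv (Fintype.equivOfCardEq (by simp))
      (step_good (step_herm (herm_fin n)) ih)

theorem good (ι : Type) [Fintype ι] [DecidableEq ι] : Goodn ι :=
  good_equiv (Fintype.equivFin ι).symm (good_fin _)

/-- Mahler's criterion -/
theorem mahler (ι : Type) [Fintype ι] [DecidableEq ι] (ε : ℝ) (hε : 0 < ε) :
    ∃ C : ℝ, ∀ g : Matrix ι ι ℝ, g.det = 1 →
      (∀ v : ι → ℤ, v ≠ 0 → ∃ i, ε ≤ |(g *ᵥ iv v) i|) →
      ∃ γ ∈ Gam ι, ∀ i j, |(g * γ) i j| ≤ C := by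
  obtain ⟨C, hC⟩ := good ι 1 (ε ^ 2) (by positivity)
  refine ⟨C + 1, fun g hg hv => ?_⟩
  have hval : ∀ v : ι → ℝ, qv (gᵀ * 1 * g) v = ∑ i, (g *ᵥ v) i ^ 2 := by
    intro v
    rw [qv_mul]
    simp [qv, dotProduct, sq]
  have hone : Coer (1 : Matrix ι ι ℝ) := ⟨Matrix.transpose_one, 1, one_pos, fun v => by
    simp [qv]⟩
  have hco : Coer (gᵀ * 1 * g) := coer_mul hone (by rw [hg]; exact isUnit_one)
  have hd : (gᵀ * 1 * g).det ≤ 1 := by
    rw [Matrix.det_mul, Matrix.det_mul, Matrix.det_transpose, hg]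
    simp
  have hL : Lower (gᵀ * 1 * g) (ε ^ 2) := by
    intro γ hγ j
    rw [hval]
    have hne : (fun i => γ i j) ≠ 0 := by
      intro h0
      have : γ.det = 0 := Matrix.det_eq_zero_of_column_eq_zero j fun i => congrFun h0 i
      rw [this] at hγ
      exact not_isUnit_zero hγ
    obtain ⟨i, hi⟩ := hv _ hne
    have h1 : ε ^ 2 ≤ (g *ᵥ iv fun i => γ i j) i ^ 2 := by
      rw [← sq_abs ((g *ᵥ iv fun i => γ i j) i)]
      gcongr
    refine h1.trans ?_
    exact Finset.single_le_sum (f := fun i => (g *ᵥ iv fun i => γ i j) i ^ 2)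
      (fun i _ => sq_nonneg _) (Finset.mem_univ i)
  obtain ⟨γ, hγ, hj⟩ := hC _ hco hd hL
  have hent : ∀ i j, |(g * γ.map (Int.cast : ℤ → ℝ)) i j| ≤ C + 1 := by
    intro i j
    have h1 := hj j
    rw [hval] at h1
    have h2 : (g * γ.map (Int.cast : ℤ → ℝ)) i j = (g *ᵥ fun i => (γ i j : ℝ)) i := by
      simp [Matrix.mul_apply, Matrix.mulVec, dotProduct]
    rw [h2]
    have h3 : (g *ᵥ fun i => (γ i j : ℝ)) i ^ 2 ≤ C := by
      refine le_trans ?_ h1
      exact Finset.single_le_sum (f := fun i => (g *ᵥ fun i => (γ i j : ℝ)) i ^ 2)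
        (fun i _ => sq_nonneg _) (Finset.mem_univ i)
    rw [← sq_abs] at h3
    nlinarith [abs_nonneg ((g *ᵥ fun i => (γ i j : ℝ)) i),
      sq_nonneg (|(g *ᵥ fun i => (γ i j : ℝ)) i| - 1)]
  rcases Int.isUnit_iff.1 hγ with h1 | h1
  · refine ⟨γ.map (Int.cast : ℤ → ℝ), ⟨?_, fun i j => ⟨γ i j, rfl⟩⟩, hent⟩
    have := (Int.castRingHom ℝ).map_det γ
    have h2 : (γ.map (Int.cast : ℤ → ℝ)).det = (γ.det : ℝ) := by simpa using this.symm
    rw [h2, h1]
    simp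
  · have hne : Nonempty ι := by
      by_contra hcon
      rw [not_nonempty_iff] at hcon
      rw [Matrix.det_isEmpty] at h1
      norm_num at h1
    obtain ⟨j0⟩ := hne
    set δ : Matrix ι ι ℤ := γ.updateCol j0 (fun i => -γ i j0) with hδ
    have hδd : δ.det = 1 := by
      have h2 : (fun i => -γ i j0) = (-1 : ℤ) • (fun i => γ i j0) := by
        funext i
        simp
      rw [hδ, h2, Matrix.det_updateCol_smul]
      have h3 : γ.updateCol j0 (fun i => γ i j0) = γ := by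
        ext i j
        by_cases h : j = j0
        · subst h
          simp
        · simp [Matrix.updateCol_ne h]
      rw [h3, h1]
      norm_num
    refine ⟨δ.map (Int.cast : ℤ → ℝ), ⟨?_, fun i j => ⟨δ i j, rfl⟩⟩, fun i j => ?_⟩
    · have := (Int.castRingHom ℝ).map_det δ
      have h2 : (δ.map (Int.cast : ℤ → ℝ)).det = (δ.det : ℝ) := by simpa using this.symm
      rw [h2, hδd]
      simp
    · have h2 : (g * δ.map (Int.cast : ℤ → ℝ)) i j = (g * γ.map (Int.cast : ℤ → ℝ)) i j ∨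
          (g * δ.map (Int.cast : ℤ → ℝ)) i j = -(g * γ.map (Int.cast : ℤ → ℝ)) i j := by
        by_cases h : j = j0
        · right
          subst h
          simp [Matrix.mul_apply, hδ]
        · left
          simp [Matrix.mul_apply, hδ, Matrix.updateCol_ne h]
      rcases h2 with h2 | h2
      · rw [h2]; exact hent i j
      · rw [h2, abs_neg]; exact hent i j

theorem mahlerS : mahlerStatement := mahler

end QL.H76
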