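import Pool.Agent.Helper27_QL.StmtApp3

/-!
# app3: integer `U`-fixed Pluecker vectors are fixed by returns close to 1
-/

set_option autoImplicit false
open Matrix Polynomial MeasureTheory Set Filter Topology

namespace QL.H76

theorem uB_det {d : ℕ} (B : Matrix (Fin d) (Fin d) ℝ) (w : Fin d → ℝ) : (uB B w).det = 1 := by
  have h : uB B w = fromBlocks 1 (Matrix.of fun i j => if j = 0 then w i else 0)
    (Matrix.of fun i j => if i = 0 then 0 else -2 * (B *ᵥ w) j) !![1, 0; -(w ⬝ᵥ B *ᵥ w), 1] := rfl
  rw [h, det_fromBlocks_one₁₁, det_fin_two]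
  simp [mul_apply]

theorem exists_int {ι : Type} [Fintype ι] [DecidableEq ι] {γ : Matrix ι ι ℝ} (h : γ ∈ Gam ι) :
    ∃ z : Matrix ι ι ℤ, im z = γ ∧ z.det = 1 := by
  obtain ⟨h1, h2⟩ := h
  choose z hz using h2
  refine ⟨z, ?_, ?_⟩
  · ext i j
    simp [im, hz]
  · have h3 : (Matrix.map (Matrix.of z) (Int.cast : ℤ → ℝ)) = γ := by
      ext i j
      simp [hz]
    have h4 := (Int.castRingHom ℝ).map_det (Matrix.of z)
    have h5 : ((Matrix.det (Matrix.of z) : ℤ) : ℝ) = γ.det := by
      rw [← h3]
      simpa using h4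
    rw [h1] at h5
    exact_mod_cast h5

theorem im_mul {ι κ μ : Type} [Fintype κ] (A : Matrix ι κ ℤ) (C : Matrix κ μ ℤ) :
    im (A * C) = im A * im C := by
  ext i j
  simp [im, Matrix.mul_apply]

theorem pl_im {ι : Type} {k : ℕ} (A : Matrix ι (Fin k) ℤ) (i : Fin k → ι) :
    pl (im A) i = ((A.submatrix i id).det : ℝ) := by
  have h := (Int.castRingHom ℝ).map_det (A.submatrix i id)
  simp only [Int.coe_castRingHom] at h
  rw [h]
  rfl

theorem pl_cont {ι : Type} [Fintype ι] {k : ℕ} (X : Matrix ι ι ℝ) (M : Matrix ι (Fin k) ℝ)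
    (c : Fin k → ι) : Continuous fun h : Matrix ι ι ℝ => pl (X * (h * M)) c := by
  unfold pl
  refine Continuous.matrix_det ?_
  exact (Continuous.matrix_mul continuous_const (Continuous.matrix_mul continuous_id
    continuous_const)).matrix_submatrix _ _

theorem retfixB (hpl : pl_mulStatement) : retfixBStatement := by
  intro d B x hx k A hA v γ hγ g hg heq
  set M := x * im A with hM
  have hfix := hA.2
  have hgd : ∀ i, (g i).det = 1 := by
    intro i
    have h := congrArg Matrix.det (heq i)
    rw [det_mul, det_mul, det_mul, uB_det, hx, (hγ i).1] at h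
    linarith
  have hginv : ∀ i, (g i).adjugate * g i = 1 := fun i => by
    rw [adjugate_mul, hgd, one_smul]
  have hginv' : ∀ i, g i * (g i).adjugate = 1 := fun i => by
    rw [mul_adjugate, hgd, one_smul]
  have hxinv : x.adjugate * x = 1 := by rw [adjugate_mul, hx, one_smul]
  have hxinv' : x * x.adjugate = 1 := by rw [mul_adjugate, hx, one_smul]
  choose z hz hzd using fun i => exists_int (hγ i)
  have hzinv : ∀ i, im (z i) * im ((z i).adjugate) = 1 := by
    intro i
    rw [← im_mul, mul_adjugate, hzd, one_smul]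
    ext a b
    by_cases h : a = b
    · subst h; simp [im]
    · simp [im, h]
  -- the key identity
  have key : ∀ i, im ((z i).adjugate * A) = x.adjugate * ((g i).adjugate * (uB B (v i) * M)) := by
    intro i
    have h1 : uB B (v i) * x = g i * x * im ((z i).adjugate) := by
      rw [← heq i, ← hz i, Matrix.mul_assoc (uB B (v i) * x), hzinv, Matrix.mul_one]
    rw [im_mul, hM, ← Matrix.mul_assoc (uB B (v i)), h1]
    calc im (z i).adjugate * im A = (x.adjugate * x) * (im (z i).adjugate * im A) := by
          rw [hxinv, Matrix.one_mul]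
      _ = x.adjugate * (((g i).adjugate * g i) * (x * (im (z i).adjugate * im A))) := by
          rw [hginv, Matrix.one_mul, Matrix.mul_assoc]
      _ = _ := by simp only [Matrix.mul_assoc]
  have plk : ∀ i, pl (im ((z i).adjugate * A)) = pl (x.adjugate * ((g i).adjugate * M)) := by
    intro i
    rw [key, hpl, hpl, hfix, ← hpl, ← hpl]
  have hlim : ∀ c, Tendsto (fun i => pl (im ((z i).adjugate * A)) c) atTop (𝓝 (pl (im A) c)) := by
    intro c
    have h1 : Tendsto (fun i => (g i).adjugate) atTop (𝓝 1) := by
      have := (Continuous.matrix_adjugate (continuous_id (X := M3 d))).tendsto (1 : M3 d)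
      simp only [id, adjugate_one] at this
      exact this.comp hg
    have h2 := ((pl_cont x.adjugate M c).tendsto (1 : M3 d)).comp h1
    have h3 : x.adjugate * ((1 : M3 d) * M) = im A := by
      rw [Matrix.one_mul, hM, ← Matrix.mul_assoc, hxinv, Matrix.one_mul]
    rw [h3] at h2
    refine h2.congr fun i => ?_
    rw [plk]
    rfl
  have hev : ∀ᶠ i in atTop, ∀ c, pl (im ((z i).adjugate * A)) c = pl (im A) c := by
    rw [eventually_all]
    intro c
    have h1 := (hlim c).eventually (Metric.ball_mem_nhds _ one_pos)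
    filter_upwards [h1] with i hi
    rw [Real.dist_eq, pl_im, pl_im] at hi
    rw [pl_im, pl_im]
    have h2 : |(((z i).adjugate * A).submatrix c id).det - (A.submatrix c id).det| < 1 := by
      exact_mod_cast hi
    have h3 := abs_lt.1 h2
    have h4 : (((z i).adjugate * A).submatrix c id).det = (A.submatrix c id).det := by omega
    rw [h4]
  filter_upwards [hev] with i hi
  have h1 : pl (im ((z i).adjugate * A)) = pl (im A) := funext hi
  have h2 : pl (x * im ((z i).adjugate * A)) = pl M := by
    rw [hpl, h1, ← hpl]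
  have h3 : pl ((g i).adjugate * M) = pl M := by
    rw [← h2, hpl x, plk, ← hpl, ← Matrix.mul_assoc x, hxinv', Matrix.one_mul]
  calc pl (g i * M) = pl (g i * ((g i).adjugate * M)) := by rw [hpl, hpl (g i), h3]
    _ = pl M := by rw [← Matrix.mul_assoc, hginv', Matrix.one_mul]

end QL.H76
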