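import Pool.Agent.Helper27_QL.Stmt

/-!
# App1: lemmas on `SO(2,1)`
-/

set_option autoImplicit false
open Matrix Polynomial MeasureTheory Set Filter Topology

namespace QL.H76

theorem B3_sq : B3 * B3 = 1 := by
  ext i j
  fin_cases i <;> fin_cases j <;> simp [B3, Matrix.mul_apply, Fin.sum_univ_three]

/-- column relations -/
theorem cols {h : Matrix (Fin 3) (Fin 3) ℝ} (hB : hᵀ * B3 * h = B3) :
    2 * h 0 0 * h 2 0 - h 1 0 ^ 2 = 0 ∧ h 0 0 * h 2 1 + h 2 0 * h 0 1 - h 1 0 * h 1 1 = 0 ∧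
    h 0 0 * h 2 2 + h 2 0 * h 0 2 - h 1 0 * h 1 2 = 1 ∧ 2 * h 0 1 * h 2 1 - h 1 1 ^ 2 = -1 ∧
    h 0 1 * h 2 2 + h 2 1 * h 0 2 - h 1 1 * h 1 2 = 0 ∧ 2 * h 0 2 * h 2 2 - h 1 2 ^ 2 = 0 := by
  have e : ∀ i j, (hᵀ * B3 * h) i j = B3 i j := fun i j => by rw [hB]
  refine ⟨?_, ?_, ?_, ?_, ?_, ?_⟩
  · have := e 0 0
    simp [B3, Matrix.mul_apply, Fin.sum_univ_three] at this
    linarith
  · have := e 0 1
    simp [B3, Matrix.mul_apply, Fin.sum_univ_three] at this
    linarith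
  · have := e 0 2
    simp [B3, Matrix.mul_apply, Fin.sum_univ_three] at this
    linarith
  · have := e 1 1
    simp [B3, Matrix.mul_apply, Fin.sum_univ_three] at this
    linarith
  · have := e 1 2
    simp [B3, Matrix.mul_apply, Fin.sum_univ_three] at this
    linarith
  · have := e 2 2
    simp [B3, Matrix.mul_apply, Fin.sum_univ_three] at this
    linarith

/-- the transpose preserves the same form -/
theorem rows {h : Matrix (Fin 3) (Fin 3) ℝ} (hB : hᵀ * B3 * h = B3) : h * B3 * hᵀ = B3 := by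
  have h1 : (B3 * hᵀ * B3) * h = 1 := by
    rw [Matrix.mul_assoc, Matrix.mul_assoc, ← Matrix.mul_assoc hᵀ, hB, B3_sq]
  have h2 : h * (B3 * hᵀ * B3) = 1 := mul_eq_one_comm.1 h1
  have h3 : h * B3 * hᵀ * B3 = 1 := by
    rw [← h2]
    simp only [Matrix.mul_assoc]
  calc h * B3 * hᵀ = h * B3 * hᵀ * (B3 * B3) := by rw [B3_sq, Matrix.mul_one]
    _ = (h * B3 * hᵀ * B3) * B3 := by simp only [Matrix.mul_assoc]
    _ = B3 := by rw [h3, Matrix.one_mul]

theorem row0 {h : Matrix (Fin 3) (Fin 3) ℝ} (hB : hᵀ * B3 * h = B3) :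
    2 * h 0 0 * h 0 2 - h 0 1 ^ 2 = 0 := by
  have := (cols (h := hᵀ) (by rw [Matrix.transpose_transpose]; exact rows hB)).1
  simpa using this

theorem u3_iso (t : ℝ) : (u3 t)ᵀ * B3 * u3 t = B3 := by
  ext i j
  fin_cases i <;> fin_cases j <;> simp [B3, u3, Matrix.mul_apply, Fin.sum_univ_three] <;> ring

theorem u3_row0 (s : ℝ) (M : Matrix (Fin 3) (Fin 3) ℝ) (j : Fin 3) : (u3 s * M) 0 j = M 0 j := by
  rw [Matrix.mul_apply, Fin.sum_univ_three]
  simp [u3]

theorem u3_row1 (s : ℝ) (M : Matrix (Fin 3) (Fin 3) ℝ) (j : Fin 3) :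
    (u3 s * M) 1 j = s * M 0 j + M 1 j := by
  rw [Matrix.mul_apply, Fin.sum_univ_three]
  simp [u3]

theorem u3_det (t : ℝ) : (u3 t).det = 1 := by
  rw [Matrix.det_fin_three]
  simp [u3]

theorem iso_mul {g h : Matrix (Fin 3) (Fin 3) ℝ} (hg : gᵀ * B3 * g = B3) (hh : hᵀ * B3 * h = B3) :
    (g * h)ᵀ * B3 * (g * h) = B3 := by
  calc (g * h)ᵀ * B3 * (g * h) = hᵀ * (gᵀ * B3 * g) * h := by
        rw [Matrix.transpose_mul]
        simp only [Matrix.mul_assoc]
    _ = B3 := by rw [hg, hh]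

theorem so3_tri (h : Matrix (Fin 3) (Fin 3) ℝ) (hB : hᵀ * B3 * h = B3) (hd : h.det = 1)
    (h01 : h 0 1 = 0) (h00 : 0 < h 0 0) : ∃ r, h = a3 (h 0 0)⁻¹ * u3 r := by
  obtain ⟨c1, c2, c3, c4, c5, c6⟩ := cols hB
  have r0 := row0 hB
  rw [h01] at r0 c2 c4 c5
  have h02 : h 0 2 = 0 := by
    have : h 0 0 * h 0 2 = 0 := by linarith
    exact (mul_eq_zero.1 this).resolve_left h00.ne'
  rw [h02] at c3 c5 c6
  have h12 : h 1 2 = 0 := by
    have : h 1 2 ^ 2 = 0 := by linarith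
    exact pow_eq_zero_iff two_ne_zero |>.1 this
  rw [h12] at c3
  have h22 : h 0 0 * h 2 2 = 1 := by linarith
  have h11 : h 1 1 = 1 := by
    rw [Matrix.det_fin_three, h01, h02, h12] at hd
    have : (h 0 0 * h 2 2) * h 1 1 = 1 := by linarith
    rw [h22] at this
    linarith
  rw [h11] at c2
  refine ⟨h 1 0, ?_⟩
  have e22 : h 2 2 = (h 0 0)⁻¹ := by
    field_simp
    linarith
  have e21 : h 2 1 = (h 0 0)⁻¹ * h 1 0 := by
    field_simp
    linarith
  have e20 : h 2 0 = (h 0 0)⁻¹ * (h 1 0 ^ 2 / 2) := by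
    field_simp
    linarith
  ext i j
  fin_cases i <;> fin_cases j <;>
    simp [a3, u3, Matrix.mul_apply, Fin.sum_univ_three, h01, h02, h12, h11, e22, e21, e20]

theorem so3_drift (h : ℕ → Matrix (Fin 3) (Fin 3) ℝ) (hB : ∀ i, (h i)ᵀ * B3 * (h i) = B3)
    (hd : ∀ i, (h i).det = 1) (hlim : Tendsto h atTop (𝓝 1)) (hne : ∀ i, h i 0 1 ≠ 0)
    (t : ℕ → ℝ) (τ : ℝ) (ht : Tendsto (fun i => t i * h i 0 1) atTop (𝓝 τ)) (hτ : |τ| < 2) :
    ∃ s : ℕ → ℝ, Tendsto (fun i => u3 (s i) * h i * u3 (-(t i))) atTop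
      (𝓝 (a3 ((1 - τ/2)^2)⁻¹)) := by
  clear hne
  set μ : ℝ := (1 - τ / 2) ^ 2 with hμ
  have hμ0 : 0 < μ := by
    rw [abs_lt] at hτ
    have : 0 < 1 - τ / 2 := by linarith
    positivity
  have ent : ∀ a b, Tendsto (fun i => h i a b) atTop (𝓝 ((1 : Matrix (Fin 3) (Fin 3) ℝ) a b)) := by
    intro a b
    exact ((continuous_apply_apply a b).tendsto _).comp hlim
  have e00 : Tendsto (fun i => h i 0 0) atTop (𝓝 1) := by simpa using ent 0 0
  have e01 : Tendsto (fun i => h i 0 1) atTop (𝓝 0) := by simpa using ent 0 1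
  have e02 : Tendsto (fun i => h i 0 2) atTop (𝓝 0) := by simpa using ent 0 2
  have hpos : ∀ᶠ i in atTop, 0 < h i 0 0 := e00.eventually (lt_mem_nhds one_pos)
  set M : ℕ → Matrix (Fin 3) (Fin 3) ℝ := fun i => h i * u3 (-(t i)) with hM
  have hMB : ∀ i, (M i)ᵀ * B3 * M i = B3 := fun i => iso_mul (hB i) (u3_iso _)
  have hMd : ∀ i, (M i).det = 1 := fun i => by rw [hM, Matrix.det_mul, hd, u3_det, one_mul]
  have hM00 : ∀ i, M i 0 0 = h i 0 0 - t i * h i 0 1 + t i ^ 2 / 2 * h i 0 2 := by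
    intro i
    simp [hM, u3, Matrix.mul_apply, Fin.sum_univ_three]
    ring
  have hM01 : ∀ i, M i 0 1 = h i 0 1 - t i * h i 0 2 := by
    intro i
    simp [hM, u3, Matrix.mul_apply, Fin.sum_univ_three]
    ring
  have hM02 : ∀ i, M i 0 2 = h i 0 2 := by
    intro i
    simp [hM, u3, Matrix.mul_apply, Fin.sum_univ_three]
  have h02 : ∀ᶠ i in atTop, h i 0 2 = h i 0 1 ^ 2 / (2 * h i 0 0) := by
    filter_upwards [hpos] with i hi
    have := row0 (hB i)
    field_simp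
    linarith
  have l00 : Tendsto (fun i => M i 0 0) atTop (𝓝 μ) := by
    have l1 : Tendsto (fun i => (h i 0 0 - t i * h i 0 1 / 2) ^ 2 / h i 0 0) atTop (𝓝 μ) := by
      have := ((e00.sub (ht.div_const 2)).pow 2).div e00 one_ne_zero
      rw [div_one] at this
      exact this
    refine l1.congr' ?_
    filter_upwards [hpos, h02] with i hi hi2
    rw [hM00, hi2]
    field_simp
    ring
  have l01 : Tendsto (fun i => M i 0 1) atTop (𝓝 0) := by
    have l1 : Tendsto (fun i => h i 0 1 * (1 - t i * h i 0 1 / (2 * h i 0 0))) atTop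
        (𝓝 (0 * (1 - τ / (2 * 1)))) :=
      e01.mul (tendsto_const_nhds.sub (ht.div (e00.const_mul 2) (by norm_num)))
    rw [zero_mul] at l1
    refine l1.congr' ?_
    filter_upwards [hpos, h02] with i hi hi2
    rw [hM01, hi2]
    field_simp
  have l02 : Tendsto (fun i => M i 0 2) atTop (𝓝 0) := by
    simp only [hM02]
    exact e02
  have hMpos : ∀ᶠ i in atTop, 0 < M i 0 0 := l00.eventually (lt_mem_nhds hμ0)
  refine ⟨fun i => -(M i 1 0) / M i 0 0, ?_⟩
  have hassoc : ∀ i, u3 (-(M i 1 0) / M i 0 0) * h i * u3 (-(t i)) =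
      u3 (-(M i 1 0) / M i 0 0) * M i := fun i => Matrix.mul_assoc _ _ _
  simp only [hassoc]
  have key : ∀ᶠ i in atTop, u3 (-(M i 1 0) / M i 0 0) * M i =
      !![M i 0 0, M i 0 1, M i 0 2; 0, 1, M i 0 1 * (M i 0 0)⁻¹; 0, 0, (M i 0 0)⁻¹] := by
    filter_upwards [hMpos] with i hi
    set N := u3 (-(M i 1 0) / M i 0 0) * M i with hN
    have hNB : Nᵀ * B3 * N = B3 := iso_mul (u3_iso _) (hMB i)
    have hNd : N.det = 1 := by rw [hN, Matrix.det_mul, hMd, u3_det, one_mul]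
    have n00 : N 0 0 = M i 0 0 := u3_row0 _ _ _
    have n01 : N 0 1 = M i 0 1 := u3_row0 _ _ _
    have n02 : N 0 2 = M i 0 2 := u3_row0 _ _ _
    have n10 : N 1 0 = 0 := by
      rw [hN, u3_row1]
      field_simp
      ring
    obtain ⟨c1, c2, c3, c4, c5, c6⟩ := cols hNB
    rw [n10] at c1 c2 c3
    rw [n00] at c1 c2 c3
    have n20 : N 2 0 = 0 := by
      have : M i 0 0 * N 2 0 = 0 := by linarith
      exact (mul_eq_zero.1 this).resolve_left hi.ne'
    rw [n20] at c2 c3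
    have n21 : N 2 1 = 0 := by
      have : M i 0 0 * N 2 1 = 0 := by linarith
      exact (mul_eq_zero.1 this).resolve_left hi.ne'
    have n22' : M i 0 0 * N 2 2 = 1 := by linarith
    have n22 : N 2 2 = (M i 0 0)⁻¹ := by
      field_simp
      linarith
    have n11 : N 1 1 = 1 := by
      rw [Matrix.det_fin_three, n10, n20, n21, n00] at hNd
      have : (M i 0 0 * N 2 2) * N 1 1 = 1 := by linarith
      rw [n22'] at this
      linarith
    rw [n11, n21, n01, n22] at c5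
    have n12 : N 1 2 = M i 0 1 * (M i 0 0)⁻¹ := by linarith
    ext a b
    fin_cases a <;> fin_cases b <;> simp [n00, n01, n02, n10, n11, n12, n20, n21, n22]
  have hlimit : Tendsto (fun i => (!![M i 0 0, M i 0 1, M i 0 2; 0, 1, M i 0 1 * (M i 0 0)⁻¹;
      0, 0, (M i 0 0)⁻¹] : Matrix (Fin 3) (Fin 3) ℝ)) atTop (𝓝 (a3 μ⁻¹)) := by
    have l11 : Tendsto (fun i => M i 0 1 * (M i 0 0)⁻¹) atTop (𝓝 0) := by
      have := l01.mul (l00.inv₀ hμ0.ne')
      rwa [zero_mul] at this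
    refine tendsto_pi_nhds.2 fun a => tendsto_pi_nhds.2 fun b => ?_
    fin_cases a <;> fin_cases b
    · simpa [a3] using l00
    · simpa [a3] using l01
    · simpa [a3] using l02
    · simp [a3]
    · simp [a3]
    · simpa [a3] using l11
    · simp [a3]
    · simp [a3]
    · simpa [a3] using l00.inv₀ hμ0.ne'
  exact hlimit.congr' (key.mono fun i hi => hi.symm)

theorem so3_triS : so3_triStatement := so3_tri

theorem so3_driftS : so3_driftStatement := so3_drift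

end QL.H76
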